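import Pool.Agent.H161R4.RKAsym

set_option autoImplicit false

/-!
MP_904cf4_co: a new lower bound for `f(k,t)`, the largest `f` such that `K_k` and `K_k + f K_t`
are Ramsey-equivalent. With the known upper bound `(R(k,k-t+1) - 1)/t` it gives `f(k,k-2)` up to an
additive constant, in particular up to a factor `1 + o(1)`.
-/

namespace Pool.Agent.Results.MP_904cf4_co.LowerBound

open Pool.Agent.H161R4

theorem result :
    -- `K_k` and `K_k + f K_t` are Ramsey-equivalent as soon as `k + (f-1) t < R(t, k-t+1)`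
    (∀ k f t : ℕ, 1 ≤ t → t < k → k + (f - 1) * t < ramseyNum t (k - t + 1) →
      RamseyEquivalent (⊤ : SimpleGraph (Fin k)) (cliquePlus k f t)) ∧
    -- hence two lower bounds for `f(k,t)`
    (∀ k t : ℕ, 1 ≤ t → t < k →
      BddAbove {f : ℕ | RamseyEquivalent (⊤ : SimpleGraph (Fin k)) (cliquePlus k f t)} ∧
      (ramseyNum t (k - t + 1) - 1 - (k - t)) / t ≤ maxCopies k t ∧
      (ramseyNum k (k - t + 1) - (k - t) * ramseyNum k (k - t) - 1 - (k - t)) / t
        ≤ maxCopies k t) ∧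
    -- the case `t = k - 2`, explicitly and asymptotically
    (∀ k : ℕ, 3 ≤ k → (ramseyNum k 3 - 2 * k - 3) / (k - 2) ≤ maxCopies k (k - 2)) ∧
    (∀ ε : ℝ, 0 < ε → ∃ K : ℕ, ∀ k : ℕ, K ≤ k →
      (1 - ε) * ((ramseyNum k 3 : ℝ) / k) ≤ (maxCopies k (k - 2) : ℝ)) :=
  ⟨equivalent_of_lt,
    fun k t ht htk => ⟨bddAbove_copies k t ht, lower_bound k t ht htk, lower_bound' k t ht htk⟩,
    lower_bound_two, asymptotic⟩

end Pool.Agent.Results.MP_904cf4_co.LowerBound
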